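import Pool.Agent.N990.RT.Stm

/-!
# RT/ENE: a function of energy two on the diamond lattice (helper935)
-/

set_option autoImplicit false

namespace Pool.Agent.N935.RT

open Pool.Agent.N988.EA

noncomputable section

/-- the value at an end -/
def iv (s : Bool) : ℝ := if s then 1 else 0

/-- the function of energy one with the values `0`, `1` at the ends -/
def psi : (n : ℕ) → Pt 2 n → ℝ
  | 0, x => Sum.elim iv (fun _ => 0) x
  | n + 1, x => Sum.elim iv (fun v : Vert 2 (n + 1) =>
      Sum.elim (fun _ : Fin 2 => (1 / 2 : ℝ))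
        (fun y : Fin 2 × Bool × Vert 2 n => (psi n (.inr y.2.2) + iv y.2.1) / 2) v) x

theorem psi_inl (n : ℕ) (s : Bool) : psi n (.inl s) = iv s := by
  cases n <;> rfl

theorem psi_emb (n : ℕ) (i : Fin 2) (h : Bool) (y : Pt 2 n) :
    psi (n + 1) (emb i h y) = (psi n y + iv h) / 2 := by
  rcases y with s | x
  · rw [psi_inl]
    by_cases hs : s = h
    · have e : (emb i h (.inl s) : Pt 2 (n + 1)) = .inl h := by
        show (if s = h then Sum.inl h else Sum.inr (Sum.inl i : Vert 2 (n + 1)) : Pt 2 (n + 1)) = _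
        rw [if_pos hs]
      rw [e, psi_inl, hs]
      ring
    · have e : (emb i h (.inl s) : Pt 2 (n + 1)) = .inr (Sum.inl i : Vert 2 (n + 1)) := by
        show (if s = h then Sum.inl h else Sum.inr (Sum.inl i : Vert 2 (n + 1)) : Pt 2 (n + 1)) = _
        rw [if_neg hs]
      rw [e]
      have e2 : psi (n + 1) (.inr (Sum.inl i : Vert 2 (n + 1))) = 1 / 2 := rfl
      rw [e2]
      cases s <;> cases h <;> simp_all [iv]
  · rfl

theorem sum_edge (n : ℕ) (f : Edge 2 (n + 1) → ℝ) :
    ∑ e : Edge 2 (n + 1), f e = ∑ i : Fin 2, ∑ h : Bool, ∑ e' : Edge 2 n, f (i, h, e') := by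
  have e1 : ∑ e : Edge 2 (n + 1), f e = ∑ e : Fin 2 × Bool × Edge 2 n, f e := rfl
  rw [e1, Fintype.sum_prod_type]
  refine Finset.sum_congr rfl fun i _ => ?_
  rw [Fintype.sum_prod_type]

theorem psi_energy (n : ℕ) :
    ∑ e : Edge 2 n, (psi n (bd n e false) - psi n (bd n e true)) ^ 2 = 1 := by
  induction n with
  | zero =>
    have e1 : ∑ e : Edge 2 0, (psi 0 (bd 0 e false) - psi 0 (bd 0 e true)) ^ 2 =
      ∑ e : Unit, (iv false - iv true) ^ 2 := rfl
    rw [e1]
    simp [iv]
  | succ n ih =>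
    rw [sum_edge]
    have h : ∀ (i : Fin 2) (h : Bool) (e' : Edge 2 n),
        (psi (n + 1) (bd (n + 1) ((i, h, e') : Edge 2 (n + 1)) false) -
          psi (n + 1) (bd (n + 1) ((i, h, e') : Edge 2 (n + 1)) true)) ^ 2 =
        1 / 4 * (psi n (bd n e' false) - psi n (bd n e' true)) ^ 2 := by
      intro i h e'
      have e1 : ∀ s, bd (n + 1) ((i, h, e') : Edge 2 (n + 1)) s = emb i h (bd n e' s) :=
        fun _ => rfl
      rw [e1, e1, psi_emb, psi_emb]
      ring
    simp only [h]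
    simp only [← Finset.mul_sum, ih]
    simp
    norm_num

/-- the function of energy two -/
def phi (n : ℕ) (i₀ : Fin 2) (x : Pt 2 (n + 1)) : ℝ :=
  Sum.elim (fun _ : Bool => (0 : ℝ)) (fun v : Vert 2 (n + 1) =>
    Sum.elim (fun i : Fin 2 => if i = i₀ then (1 : ℝ) else 0)
      (fun y : Fin 2 × Bool × Vert 2 n =>
        if y.1 = i₀ then (if y.2.1 then 1 - psi n (.inr y.2.2) else psi n (.inr y.2.2)) else 0) v) x

theorem phi_emb (n : ℕ) (i₀ i : Fin 2) (h : Bool) (y : Pt 2 n) :
    phi n i₀ (emb i h y) = if i = i₀ then (if h then 1 - psi n y else psi n y) else 0 := by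
  rcases y with s | x
  · rw [psi_inl]
    by_cases hs : s = h
    · have e : (emb i h (.inl s) : Pt 2 (n + 1)) = .inl h := by
        show (if s = h then Sum.inl h else Sum.inr (Sum.inl i : Vert 2 (n + 1)) : Pt 2 (n + 1)) = _
        rw [if_pos hs]
      rw [e, hs]
      have e2 : phi n i₀ (.inl h) = 0 := rfl
      rw [e2]
      cases h <;> simp [iv]
    · have e : (emb i h (.inl s) : Pt 2 (n + 1)) = .inr (Sum.inl i : Vert 2 (n + 1)) := by
        show (if s = h then Sum.inl h else Sum.inr (Sum.inl i : Vert 2 (n + 1)) : Pt 2 (n + 1)) = _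
        rw [if_neg hs]
      rw [e]
      have e2 : phi n i₀ (.inr (Sum.inl i : Vert 2 (n + 1))) = if i = i₀ then (1 : ℝ) else 0 := rfl
      rw [e2]
      cases s <;> cases h <;> simp_all [iv]
  · rfl

theorem t_ene : Pool.Agent.N990.RT.S_ENE := by
  intro n i₀
  refine ⟨phi n i₀, fun t => rfl, ?_, ?_⟩
  · have e2 : phi n i₀ (.inr (Sum.inl i₀ : Vert 2 (n + 1))) = if i₀ = i₀ then (1 : ℝ) else 0 := rfl
    rw [e2, if_pos rfl]
  · rw [sum_edge]
    have h : ∀ (i : Fin 2) (h : Bool) (e' : Edge 2 n),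
        (phi n i₀ (bd (n + 1) ((i, h, e') : Edge 2 (n + 1)) false) -
          phi n i₀ (bd (n + 1) ((i, h, e') : Edge 2 (n + 1)) true)) ^ 2 =
        (if i = i₀ then (1 : ℝ) else 0) * (psi n (bd n e' false) - psi n (bd n e' true)) ^ 2 := by
      intro i h e'
      have e1 : ∀ s, bd (n + 1) ((i, h, e') : Edge 2 (n + 1)) s = emb i h (bd n e' s) :=
        fun _ => rfl
      rw [e1, e1, phi_emb, phi_emb]
      split_ifs <;> ring
    simp only [h]
    simp only [← Finset.mul_sum, psi_energy]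
    simp

end

end Pool.Agent.N935.RT
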